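import Pool.Agent.W42.RG.Defs2

set_option autoImplicit false

namespace Pool.Agent.W249.LY

open Finset Filter Topology MeasureTheory Pool.Agent.W42.RN Pool.Agent.W42.RL Pool.Agent.W42.RG

variable {𝔤 : Type} [LieRing 𝔤] [LieAlgebra ℝ 𝔤] [FiniteDimensional ℝ 𝔤] [TopologicalSpace 𝔤]
  [IsTopologicalAddGroup 𝔤] [ContinuousSMul ℝ 𝔤] [T2Space 𝔤]

omit [FiniteDimensional ℝ 𝔤] [TopologicalSpace 𝔤] [IsTopologicalAddGroup 𝔤] [ContinuousSMul ℝ 𝔤]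
  [T2Space 𝔤] in
theorem span_le (K : LieIdeal ℝ 𝔤) (ψ : ℂ →ₗ[ℝ] 𝔤) :
    (K ⊔ LieSubmodule.lieSpan ℝ 𝔤 (Set.range ψ) : LieIdeal ℝ 𝔤) ≤
      (K ⊔ LieSubmodule.lieSpan ℝ 𝔤 {ψ 1}) ⊔ (K ⊔ LieSubmodule.lieSpan ℝ 𝔤 {ψ Complex.I}) := by
  set J : LieIdeal ℝ 𝔤 :=
    (K ⊔ LieSubmodule.lieSpan ℝ 𝔤 {ψ 1}) ⊔ (K ⊔ LieSubmodule.lieSpan ℝ 𝔤 {ψ Complex.I}) with hJ
  refine sup_le (le_sup_left.trans le_sup_left) (LieSubmodule.lieSpan_le.2 ?_)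
  rintro _ ⟨ζ, rfl⟩
  have h1 : ψ 1 ∈ J := by
    have : ψ 1 ∈ LieSubmodule.lieSpan ℝ 𝔤 {ψ 1} := LieSubmodule.subset_lieSpan rfl
    exact (le_sup_right.trans le_sup_left :
      (LieSubmodule.lieSpan ℝ 𝔤 {ψ 1} : LieIdeal ℝ 𝔤) ≤ J) this
  have h2 : ψ Complex.I ∈ J := by
    have : ψ Complex.I ∈ LieSubmodule.lieSpan ℝ 𝔤 {ψ Complex.I} := LieSubmodule.subset_lieSpan rfl
    exact (le_sup_right.trans le_sup_right :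
      (LieSubmodule.lieSpan ℝ 𝔤 {ψ Complex.I} : LieIdeal ℝ 𝔤) ≤ J) this
  have h3 : ψ ζ = ζ.re • ψ 1 + ζ.im • ψ Complex.I := by
    rw [← map_smul, ← map_smul, ← map_add]
    congr 1
    apply Complex.ext <;> simp
  show ψ ζ ∈ J
  rw [h3]
  exact J.toSubmodule.add_mem (J.toSubmodule.smul_mem _ h1) (J.toSubmodule.smul_mem _ h2)

theorem stab_sup {X : Type} [MeasurableSpace X] {μ : Measure X} [IsProbabilityMeasure μ]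
    {E : 𝔤 → X → X} (hE : LieAct μ E) {P Q : LieIdeal ℝ 𝔤} {B : Set X} (hB : MeasurableSet B)
    (hP : ∀ V ∈ P, E V ⁻¹' B =ᵐ[μ] B) (hQ : ∀ V ∈ Q, E V ⁻¹' B =ᵐ[μ] B) :
    ∀ V ∈ P ⊔ Q, E V ⁻¹' B =ᵐ[μ] B := by
  intro V hV
  obtain ⟨a, ha, b, hb, rfl⟩ := (LieSubmodule.mem_sup P Q V).1 hV
  exact stab_add hE hB a b (fun s => hP _ (P.toSubmodule.smul_mem s ha))
    (fun s => hQ _ (Q.toSubmodule.smul_mem s hb))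

theorem t_IRA (hRA : S_RAon) (hM : S_MAUE) (hN : S_NILL) (hF : S_RFL) (hS : S_RSHR) : S_IRA := by
  intro X _ 𝔤 _ _ _ _ _ _ _ μ _ E hG hE T hT A hA hc K hK ω hω φ d hd hφ k hmix
  set ψ : ℂ →ₗ[ℝ] 𝔤 := (nw A ω)^[d] φ with hψ
  have hψK : ∀ ζ, nw A ω ψ ζ ∈ K := by
    intro ζ
    have := hφ ζ
    rwa [Function.iterate_succ_apply'] at this
  obtain ⟨hRF, hT1, hT2, -⟩ := hF X 𝔤 μ E hE T hT A hc K hK ω ψ hψK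
  have hSh := hS X 𝔤 μ E hE T hT A hc K hK ω hω φ d hd hφ
  have hnil := hN 𝔤 A hA K hK ω hω φ d hd hφ
  set J₁ : LieIdeal ℝ 𝔤 := ⁅(⊤ : LieIdeal ℝ 𝔤), K ⊔ LieSubmodule.lieSpan ℝ 𝔤 {ψ 1}⁆ with hJ₁
  set J₂ : LieIdeal ℝ 𝔤 := ⁅(⊤ : LieIdeal ℝ 𝔤), K ⊔ LieSubmodule.lieSpan ℝ 𝔤 {ψ Complex.I}⁆
    with hJ₂
  refine hRA X (mK μ E (K : Set 𝔤)) μ T hT (mK_le μ E _) hT1 hT2 (fun ζ => E (ψ ζ)) ω hω hRF
    (fun ε ζ => E (ε • φ (ω ^ d * ζ))) (fun ε ζ => hE.mp _) (fun ε ζ => conj_meas hE K _) (rt d)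
    (rate_rt hd) hSh J₁ J₂ (fun a => E a) (fun a => E a) (fun a => hE.mp _) (fun a => hE.mp _)
    (fun a => conj_meas hE K _) (fun a => conj_meas hE K _) ?_ ?_ k ?_
  · rintro f hf ⟨χ, hχ1, hχ2⟩ a
    refine hM X 𝔤 μ E hG K (ψ 1) (hnil 1) f hf (fun u => ⟨χ u, hχ1 u, ?_⟩) a a.2
    have := hχ2 u
    simp only [map_smul] at this
    exact this
  · rintro f hf ⟨χ, hχ1, hχ2⟩ a
    refine hM X 𝔤 μ E hG K (ψ Complex.I) (hnil Complex.I) f hf (fun u => ⟨χ u, hχ1 u, ?_⟩) a a.2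
    have := hχ2 u
    simp only [map_smul] at this
    exact this
  · intro B hB ε hε
    refine hmix B (fun i => ⟨(hB i).1, ⟨(hB i).1, ?_⟩⟩) ε hε
    obtain ⟨h0, h1, h2, h3⟩ := hB i
    have hle : (K ⊔ ⁅(⊤ : LieIdeal ℝ 𝔤), K ⊔ LieSubmodule.lieSpan ℝ 𝔤 (Set.range ψ)⁆ : LieIdeal ℝ 𝔤)
        ≤ K ⊔ (J₁ ⊔ J₂) := by
      refine sup_le_sup le_rfl ?_
      rw [hJ₁, hJ₂, ← LieSubmodule.lie_sup]
      exact LieSubmodule.mono_lie_right _ (span_le K ψ)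
    intro V hV
    exact stab_sup hE h0 h1.2 (stab_sup hE h0 (fun V hV => h2 ⟨V, hV⟩) (fun V hV => h3 ⟨V, hV⟩)) V
      (hle hV)

end Pool.Agent.W249.LY

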